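import Pool.Agent.Helper64.HG.Stmts

set_option autoImplicit false

namespace Pool.Agent.Helper64.HG

/-- four distinct indices -/
def kred_D (i j k l : Fin 4) : Prop := i ≠ j ∧ i ≠ k ∧ i ≠ l ∧ j ≠ k ∧ j ≠ l ∧ k ≠ l

theorem kred_comp : ∀ i j : Fin 4, i ≠ j → ∃ k l, kred_D i j k l := by
  unfold kred_D
  decide

theorem kred_comp3 : ∀ i j k : Fin 4, i ≠ j → i ≠ k → j ≠ k → ∃ l, kred_D i j k l := by
  unfold kred_D
  decide

theorem kred_comb (m : Fin 4 → Fin 4 → ℕ) (hs : ∀ i j, m i j = m j i)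
    (hT : ∀ i j k, i ≠ j → i ≠ k → j ≠ k → 2 ≤ m i j + m j k + m i k)
    (hP : ∀ i j k l, kred_D i j k l → ¬ (m i j = 0 ∧ m j k = 0 ∧ m k l = 0)) :
    ∃ i j k l, kred_D i j k l ∧
      ((m i j ≠ 0 ∧ 2 ≤ m k l ∧ (m k i ≠ 0 ∨ m i l ≠ 0) ∧ (m k j ≠ 0 ∨ m j l ≠ 0)) ∨
      (m i j = 0 ∧ m i k = 0 ∧ m i l = 0) ∨
      (m i j = 0 ∧ m i k = 0 ∧ m i l = 1 ∧ 2 ≤ m j k ∧ 1 ≤ m j l ∧ 1 ≤ m k l) ∨
      (m i j = 0 ∧ m i k = 1 ∧ m i l = 1 ∧ m j k = 1 ∧ m j l = 1) ∨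
      (m i j = 1 ∧ m i k = 1 ∧ m i l = 1 ∧ m j k = 1 ∧ m j l = 1 ∧ m k l = 1)) := by
  by_cases h2 : ∃ p q r, p ≠ q ∧ p ≠ r ∧ q ≠ r ∧ m p q = 0 ∧ m p r = 0
  · obtain ⟨p, q, r, hpq, hpr, hqr, h3, h4⟩ := h2
    obtain ⟨s, hD⟩ := kred_comp3 p q r hpq hpr hqr
    obtain ⟨-, -, hps, -, hqs, hrs⟩ := id hD
    by_cases h5 : m p s = 0
    · exact ⟨p, q, r, s, hD, Or.inr (Or.inl ⟨h3, h4, h5⟩)⟩
    · have h6 := hT p q r hpq hpr hqr
      have h7 : m q s ≠ 0 := fun h => hP r p q s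
        ⟨hpr.symm, hqr.symm, hrs, hpq, hps, hqs⟩ ⟨by rw [hs]; exact h4, h3, h⟩
      have h8 : m r s ≠ 0 := fun h => hP q p r s
        ⟨hpq.symm, hqr, hqs, hpr, hps, hrs⟩ ⟨by rw [hs]; exact h3, h4, h⟩
      by_cases h9 : m p s = 1
      · exact ⟨p, q, r, s, hD, Or.inr (Or.inr (Or.inl
          ⟨h3, h4, h9, by omega, by omega, by omega⟩))⟩
      · refine ⟨q, r, p, s, ⟨hqr, hpq.symm, hqs, hpr.symm, hrs, hps⟩, Or.inl
          ⟨by omega, by omega, Or.inr h7, Or.inr h8⟩⟩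
  · have h3 : ∀ p q r, p ≠ q → p ≠ r → q ≠ r → ¬ (m p q = 0 ∧ m p r = 0) :=
      fun p q r a b c d => h2 ⟨p, q, r, a, b, c, d.1, d.2⟩
    by_cases h4 : ∃ i j k l, kred_D i j k l ∧ m i j ≠ 0 ∧ 2 ≤ m k l
    · obtain ⟨i, j, k, l, hD, h5, h6⟩ := h4
      obtain ⟨hij, hik, hil, hjk, hjl, hkl⟩ := id hD
      refine ⟨i, j, k, l, hD, Or.inl ⟨h5, h6, ?_, ?_⟩⟩
      · by_contra hc
        push Not at hc
        exact h3 i k l hik hil hkl ⟨by rw [hs]; exact hc.1, hc.2⟩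
      · by_contra hc
        push Not at hc
        exact h3 j k l hjk hjl hkl ⟨by rw [hs]; exact hc.1, hc.2⟩
    · have h5 : ∀ i j k l, kred_D i j k l → m i j ≠ 0 → m k l ≤ 1 := by
        intro i j k l hD h6
        by_contra h7
        exact h4 ⟨i, j, k, l, hD, h6, by omega⟩
      by_cases h6 : ∃ i j, i ≠ j ∧ m i j = 0
      · obtain ⟨i, j, hij, h7⟩ := h6
        obtain ⟨k, l, hD⟩ := kred_comp i j hij
        obtain ⟨-, hik, hil, hjk, hjl, hkl⟩ := id hD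
        have a1 : m i k ≠ 0 := fun h => h3 i j k hij hik hjk ⟨h7, h⟩
        have a2 : m i l ≠ 0 := fun h => h3 i j l hij hil hjl ⟨h7, h⟩
        have a3 : m j k ≠ 0 := fun h => h3 j i k hij.symm hjk hik ⟨by rw [hs]; exact h7, h⟩
        have a4 : m j l ≠ 0 := fun h => h3 j i l hij.symm hjl hil ⟨by rw [hs]; exact h7, h⟩
        have b1 := h5 i k j l ⟨hik, hij, hil, hjk.symm, hkl, hjl⟩ a1
        have b2 := h5 j l i k ⟨hjl, hij.symm, hjk, hil.symm, hkl.symm, hik⟩ a4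
        have b3 := h5 i l j k ⟨hil, hij, hik, hjl.symm, hkl.symm, hjk⟩ a2
        have b4 := h5 j k i l ⟨hjk, hij.symm, hjl, hik.symm, hkl, hil⟩ a3
        exact ⟨i, j, k, l, hD, Or.inr (Or.inr (Or.inr (Or.inl
          ⟨h7, by omega, by omega, by omega, by omega⟩)))⟩
      · have h7 : ∀ i j, i ≠ j → m i j = 1 := by
          intro i j hij
          have h8 : m i j ≠ 0 := fun h => h6 ⟨i, j, hij, h⟩
          obtain ⟨k, l, hD⟩ := kred_comp i j hij
          obtain ⟨-, hik, hil, hjk, hjl, hkl⟩ := id hD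
          have h9 : m k l ≠ 0 := fun h => h6 ⟨k, l, hkl, h⟩
          have b1 := h5 k l i j ⟨hkl, hik.symm, hjk.symm, hil.symm, hjl.symm, hij⟩ h9
          omega
        refine ⟨0, 1, 2, 3, ?_, Or.inr (Or.inr (Or.inr (Or.inr ⟨?_, ?_, ?_, ?_, ?_, ?_⟩)))⟩
        · unfold kred_D; decide
        all_goals exact h7 _ _ (by decide)

/-- the permutation with given values -/
theorem kred_perm (i j k l : Fin 4) (hD : kred_D i j k l) :
    ∃ τ : Equiv.Perm (Fin 4), τ 0 = i ∧ τ 1 = j ∧ τ 2 = k ∧ τ 3 = l := by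
  obtain ⟨hij, hik, hil, hjk, hjl, hkl⟩ := hD
  have hinj : Function.Injective ![i, j, k, l] := by
    intro a b h
    fin_cases a <;> fin_cases b <;> simp_all
  exact ⟨Equiv.ofBijective _ (Finite.injective_iff_bijective.1 hinj), rfl, rfl, rfl, rfl⟩

theorem kred_tri {V : Type} (G : SimpleGraph V) (hG : Girth5 G) (x : Fin 4 → V)
    (A : Fin 4 → Fin 4 → List V) (hK : KSys G x A) (i j k : Fin 4) (hij : i ≠ j) (hik : i ≠ k)
    (hjk : j ≠ k) : 2 ≤ (A i j).length + (A j k).length + (A i k).length := by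
  have hone : ∀ a b c : Fin 4, a ≠ b → a ≠ c → b ≠ c → (A a b).length = 1 → A b c = [] →
      A a c = [] → False := by
    intro a b c hab hac hbc h1 h2 h3
    obtain ⟨y, hy⟩ := List.length_eq_one_iff.1 h1
    have hne : A a b ≠ [] := by rw [hy]; exact List.cons_ne_nil _ _
    obtain ⟨-, -, hn1, hn2, hl1, hl2⟩ := hK.link a b hab hne
    have hym : y ∈ A a b := by rw [hy]; exact List.mem_singleton.2 rfl
    have e1 : G.Adj (x a) y := (hl1 y hym).2 (by rw [hy]; rfl)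
    have e2 : G.Adj (x b) y := (hl2 y hym).2 (by rw [hy]; rfl)
    have e3 : G.Adj (x b) (x c) := hK.edge b c hbc h2
    have e4 : G.Adj (x a) (x c) := hK.edge a c hac h3
    have e5 := (hK.antix a b c hab hac.symm hbc.symm) (x c) (List.mem_singleton.2 rfl) y hym
    exact hG.2 (x a) y (x b) (x c) (fun h => hab (hK.inj h)) (fun h => e5.1 h.symm) e1 e2.symm
      e3 e4.symm
  by_contra hcon
  push Not at hcon
  have hnil : ∀ a b : Fin 4, (A a b).length = 0 → A a b = [] := fun a b h =>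
    List.eq_nil_of_length_eq_zero h
  have hrl : ∀ a b : Fin 4, (A a b).length = (A b a).length := by
    intro a b
    rw [hK.rev b a, List.length_reverse]
  rcases Nat.eq_zero_or_pos (A i j).length with h1 | h1
  · rcases Nat.eq_zero_or_pos (A j k).length with h2 | h2
    · rcases Nat.eq_zero_or_pos (A i k).length with h3 | h3
      · exact hG.1 _ _ _ (hK.edge i j hij (hnil _ _ h1)) (hK.edge j k hjk (hnil _ _ h2))
          (hK.edge i k hik (hnil _ _ h3))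
      · exact hone i k j hik hij hjk.symm (by omega) (hnil _ _ (by rw [hrl]; exact h2))
          (hnil _ _ h1)
    · exact hone j k i hjk hij.symm hik.symm (by omega) (hnil _ _ (by rw [hrl]; omega))
        (hnil _ _ (by rw [hrl]; exact h1))
  · exact hone i j k hij hik hjk (by omega) (hnil _ _ (by omega)) (hnil _ _ (by omega))

theorem kred_wheel (h3 : ST_CY2) (h6 : ST_CAT) {V : Type} (G : SimpleGraph V)
    (x : Fin 4 → V) (A : Fin 4 → Fin 4 → List V) (hK : KSys G x A) (i j k l : Fin 4)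
    (hD : kred_D i j k l) (e1 : A i j = []) (e2 : A i k = []) (e3 : A i l = [])
    (n1 : A j k ≠ []) (n2 : A k l ≠ []) (n3 : A j l ≠ []) : HasW G := by
  obtain ⟨hij, hik, hil, hjk, hjl, hkl⟩ := hD
  have n2' : A l k ≠ [] := by
    rw [hK.rev k l]
    exact fun h => n2 (List.reverse_eq_nil_iff.1 h)
  have hne : ∀ a b : Fin 4, a ≠ b → x a ≠ x b := fun a b h h' => h (hK.inj h')
  have hB : Link G (x j) (A j l ++ x l :: A l k) (x k) :=
    h6 V G (x j) (x l) (x k) (A j l) (A l k) (hK.link j l hjl n3) (hK.link l k hkl.symm n2')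
      (hK.anti j l l k hjl hkl.symm (fun h => hjl h.1) (fun h => hjk h.1))
      (hK.antix l k j hkl.symm hjl hjk) (hK.antix j l k hjl hjk.symm hkl)
      (hne _ _ hjl) (hK.nedge j l hjl n3) (hne _ _ hkl) (hK.nedge k l hkl n2)
  have hAB : Anti G (A j k) (A j l ++ x l :: A l k) := by
    intro a ha b hb
    rw [List.mem_append, List.mem_cons] at hb
    rcases hb with hb | hb | hb
    · exact hK.anti j k j l hjk hjl (fun h => hkl h.2) (fun h => hjl h.1) a ha b hb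
    · have := hK.antix j k l hjk hjl.symm hkl.symm (x l) (List.mem_singleton.2 rfl) a ha
      rw [hb]
      exact ⟨fun h => this.1 h.symm, fun h => this.2 h.symm⟩
    · exact hK.anti j k l k hjk hkl.symm (fun h => hjl h.1) (fun h => hjk h.1) a ha b hb
  have hIC := h3 V G (x j) (x k) (A j k) (A j l ++ x l :: A l k) (hK.link j k hjk n1) hB hAB
    (hne _ _ hjk) (hK.nedge j k hjk n1)
  have hmem : ∀ y, y ∈ x j :: (A j k ++ x k :: (A j l ++ x l :: A l k).reverse) ↔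
      (y = x j ∨ y ∈ A j k ∨ y = x k ∨ y ∈ A j l ∨ y = x l ∨ y ∈ A l k) := by
    intro y
    simp only [List.mem_cons, List.mem_append, List.mem_reverse]
  refine ⟨x i, _, x j, x k, x l, ⟨hIC, ?_, ?_, ?_, ?_, hne _ _ hjk, hne _ _ hjl, hne _ _ hkl,
    hK.edge i j hij e1, hK.edge i k hik e2, hK.edge i l hil e3⟩⟩
  · rw [hmem]
    have hnot : ∀ a b : Fin 4, a ≠ b → i ≠ a → i ≠ b → x i ∉ A a b := by
      intro a b hab ha hb hm
      exact (hK.antix a b i hab ha hb (x i) (List.mem_singleton.2 rfl) (x i) hm).1 rfl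
    rintro (h | h | h | h | h | h)
    · exact hne _ _ hij h
    · exact hnot j k hjk hij hik h
    · exact hne _ _ hik h
    · exact hnot j l hjl hij hil h
    · exact hne _ _ hil h
    · exact hnot l k hkl.symm hil hik h
  · rw [hmem]; exact Or.inl rfl
  · rw [hmem]; exact Or.inr (Or.inr (Or.inl rfl))
  · rw [hmem]; exact Or.inr (Or.inr (Or.inr (Or.inr (Or.inl rfl))))

theorem st_KRED (h1 : ST_KT) (h2 : ST_KPERM) (h3 : ST_CY2) (_h4 : ST_CNS) (_h5 : ST_SNC)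
    (h6 : ST_CAT) (_h7 : ST_CY1) : ST_KRED := by
  intro V G hG hK
  obtain ⟨x, A, hK, hN⟩ := hK
  have hs : ∀ i j, (A i j).length = (A j i).length := by
    intro a b
    rw [hK.rev b a, List.length_reverse]
  have h0 : ∀ i j, (A i j).length = 0 ↔ A i j = [] := fun i j => List.length_eq_zero_iff
  obtain ⟨i, j, k, l, hD, hcase⟩ := kred_comb (fun i j => (A i j).length) hs
    (fun i j k hij hik hjk => kred_tri G hG x A hK i j k hij hik hjk)
    (fun i j k l hD h => hN i j k l hD.1 hD.2.1 hD.2.2.1 hD.2.2.2.1 hD.2.2.2.2.1 hD.2.2.2.2.2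
      ⟨(h0 _ _).1 h.1, (h0 _ _).1 h.2.1, (h0 _ _).1 h.2.2⟩)
  obtain ⟨hij, hik, hil, hjk, hjl, hkl⟩ := id hD
  simp only [ne_eq, h0] at hcase
  obtain ⟨τ, t0, t1, t2, t3⟩ := kred_perm i j k l hD
  have hKτ := h2 V G x A τ hK
  rcases hcase with h | h | h | h | h
  · left
    exact h1 V G x A i j k l hK hij hik hil hjk hjl hkl h.1 h.2.1 h.2.2.1 h.2.2.2
  · right; left
    have T1 := kred_tri G hG x A hK i j k hij hik hjk
    have T2 := kred_tri G hG x A hK i k l hik hil hkl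
    have T3 := kred_tri G hG x A hK i j l hij hil hjl
    rw [(h0 _ _).2 h.1] at T1 T3
    rw [(h0 _ _).2 h.2.1] at T1 T2
    rw [(h0 _ _).2 h.2.2] at T2 T3
    have ne : ∀ a b, 2 ≤ 0 + (A a b).length + 0 → A a b ≠ [] := by
      intro a b h hh
      rw [hh] at h
      simp at h
    exact kred_wheel h3 h6 G x A hK i j k l hD h.1 h.2.1 h.2.2 (ne _ _ T1) (ne _ _ T2)
      (ne _ _ T3)
  · right; right; left
    refine ⟨_, _, hKτ, ?_⟩
    change A (τ 0) (τ 1) = [] ∧ A (τ 0) (τ 2) = [] ∧ (A (τ 0) (τ 3)).length = 1 ∧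
      2 ≤ (A (τ 1) (τ 2)).length ∧ 1 ≤ (A (τ 1) (τ 3)).length ∧ 1 ≤ (A (τ 2) (τ 3)).length
    rw [t0, t1, t2, t3]
    exact h
  · right; right; right; left
    refine ⟨_, _, hKτ, ?_⟩
    change A (τ 0) (τ 1) = [] ∧ (A (τ 0) (τ 2)).length = 1 ∧ (A (τ 0) (τ 3)).length = 1 ∧
      (A (τ 1) (τ 2)).length = 1 ∧ (A (τ 1) (τ 3)).length = 1
    rw [t0, t1, t2, t3]
    exact h
  · right; right; right; right
    refine ⟨_, _, hKτ, ?_⟩
    obtain ⟨a1, a2, a3, a4, a5, a6⟩ := h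
    rw [← t0, ← t1] at a1
    rw [← t0, ← t2] at a2
    rw [← t0, ← t3] at a3
    rw [← t1, ← t2] at a4
    rw [← t1, ← t3] at a5
    rw [← t2, ← t3] at a6
    have b1 := hs (τ 0) (τ 1)
    have b2 := hs (τ 0) (τ 2)
    have b3 := hs (τ 0) (τ 3)
    have b4 := hs (τ 1) (τ 2)
    have b5 := hs (τ 1) (τ 3)
    have b6 := hs (τ 2) (τ 3)
    have key : ∀ (f : Fin 4 → Fin 4 → ℕ), f 0 1 = 1 → f 0 2 = 1 → f 0 3 = 1 → f 1 2 = 1 →
        f 1 3 = 1 → f 2 3 = 1 → f 1 0 = 1 → f 2 0 = 1 → f 3 0 = 1 → f 2 1 = 1 → f 3 1 = 1 →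
        f 3 2 = 1 → ∀ p q : Fin 4, p ≠ q → f p q = 1 := by
      intro f c1 c2 c3 c4 c5 c6 c7 c8 c9 c10 c11 c12 p q hpq
      fin_cases p <;> fin_cases q <;> first | exact absurd rfl hpq | assumption
    exact key (fun p q => (A (τ p) (τ q)).length) a1 a2 a3 a4 a5 a6 (b1.symm.trans a1)
      (b2.symm.trans a2) (b3.symm.trans a3) (b4.symm.trans a4) (b5.symm.trans a5)
      (b6.symm.trans a6)

end Pool.Agent.Helper64.HG
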