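import Pool.Agent.Helper64.HG.Stmts

set_option autoImplicit false

namespace Pool.Agent.Helper64.HG

/-- crossing edge of a cut in a preconnected graph -/
theorem loc_cut0 {W : Type} (H : SimpleGraph W) (hH : H.Preconnected) (Y : Set W) (y z : W)
    (hy : y ∈ Y) (hz : z ∉ Y) : ∃ a b, a ∈ Y ∧ b ∉ Y ∧ H.Adj a b := by
  obtain ⟨w⟩ := hH y z
  induction w with
  | nil => exact absurd hy hz
  | @cons a b c hab p ih =>
    by_cases hb : b ∈ Y
    · exact ih hb hz
    · exact ⟨a, b, hy, hb, hab⟩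

theorem loc_cut {V : Type} (G : SimpleGraph V) (T : Set V) (hT : (G.induce T).Preconnected)
    (Y : Set V) (y z : V) (hyT : y ∈ T) (hzT : z ∈ T) (hy : y ∈ Y) (hz : z ∉ Y) :
    ∃ a b, a ∈ T ∧ b ∈ T ∧ a ∈ Y ∧ b ∉ Y ∧ G.Adj a b := by
  obtain ⟨a, b, ha, hb, hab⟩ := loc_cut0 (G.induce T) hT {t | t.1 ∈ Y} ⟨y, hyT⟩ ⟨z, hzT⟩ hy hz
  exact ⟨a.1, b.1, a.2, b.2, ha, hb, hab⟩

/-- the component `c` of `Far G v` as a set of vertices -/
def loc_K {V : Type} (G : SimpleGraph V) (v : V)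
    (c : (G.induce (Far G v)).ConnectedComponent) : Set V :=
  {x | ∃ h : x ∈ Far G v, (G.induce (Far G v)).connectedComponentMk ⟨x, h⟩ = c}

theorem loc_sub {V : Type} (G : SimpleGraph V) (v : V)
    (c : (G.induce (Far G v)).ConnectedComponent) : loc_K G v c ⊆ Far G v :=
  fun _ h => h.1

theorem loc_adj {V : Type} (G : SimpleGraph V) (v : V)
    (c : (G.induce (Far G v)).ConnectedComponent) (x y : V) (hx : x ∈ loc_K G v c)
    (hy : y ∈ Far G v) (hxy : G.Adj x y) : y ∈ loc_K G v c := by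
  obtain ⟨h, hc⟩ := hx
  refine ⟨hy, ?_⟩
  rw [← hc]
  exact (SimpleGraph.ConnectedComponent.eq.2
    (SimpleGraph.Adj.reachable (show (G.induce (Far G v)).Adj ⟨x, h⟩ ⟨y, hy⟩ from hxy))).symm

theorem loc_uniq {V : Type} (G : SimpleGraph V) (v : V)
    (c d : (G.induce (Far G v)).ConnectedComponent) (x : V) (hx : x ∈ loc_K G v c)
    (hx' : x ∈ loc_K G v d) : c = d := by
  obtain ⟨h, hc⟩ := hx
  obtain ⟨h', hd⟩ := hx'
  rw [← hc, ← hd]

theorem loc_conn {V : Type} (G : SimpleGraph V) (v : V)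
    (c : (G.induce (Far G v)).ConnectedComponent) : (G.induce (loc_K G v c)).Preconnected := by
  have key : ∀ (a b : Far G v) (w : (G.induce (Far G v)).Walk a b) (ha : a.1 ∈ loc_K G v c)
      (hb : b.1 ∈ loc_K G v c),
      (G.induce (loc_K G v c)).Reachable ⟨a.1, ha⟩ ⟨b.1, hb⟩ := by
    intro a b w
    induction w with
    | nil => intro ha hb; exact SimpleGraph.Reachable.refl _
    | @cons a b d hab p ih =>
      intro ha hd
      have hb : b.1 ∈ loc_K G v c := loc_adj G v c a.1 b.1 ha b.2 hab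
      exact (SimpleGraph.Adj.reachable
        (show (G.induce (loc_K G v c)).Adj ⟨a.1, ha⟩ ⟨b.1, hb⟩ from hab)).trans (ih hb hd)
  intro x y
  obtain ⟨hx, hxc⟩ := id x.2
  obtain ⟨hy, hyc⟩ := id y.2
  have hr : (G.induce (Far G v)).Reachable ⟨x.1, hx⟩ ⟨y.1, hy⟩ :=
    SimpleGraph.ConnectedComponent.eq.1 (hxc.trans hyc.symm)
  obtain ⟨w⟩ := hr
  exact key _ _ w x.2 y.2

theorem loc_out {V : Type} (G : SimpleGraph V) (v : V)
    (c : (G.induce (Far G v)).ConnectedComponent) (x y : V) (hx : x ∈ loc_K G v c)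
    (hy : y ∉ loc_K G v c) (hxy : G.Adj x y) : y ∈ Att G v (loc_K G v c) := by
  have hyv : y ≠ v := by
    rintro rfl
    exact (loc_sub G _ c hx).2 hxy.symm
  have hvy : G.Adj v y := by
    by_contra hn
    exact hy (loc_adj G v c x y hx ⟨hyv, hn⟩ hxy)
  exact ⟨hvy, x, hx, hxy.symm⟩

theorem loc_nonempty {V : Type} (G : SimpleGraph V) (v : V)
    (c : (G.induce (Far G v)).ConnectedComponent) : ∃ x, x ∈ loc_K G v c := by
  obtain ⟨x, hx⟩ := c.exists_rep
  exact ⟨x.1, x.2, hx⟩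

theorem loc_notK {V : Type} (G : SimpleGraph V) (v : V)
    (c : (G.induce (Far G v)).ConnectedComponent) (n : V) (hn : G.Adj v n) :
    n ∉ loc_K G v c := fun h => (loc_sub G v c h).2 hn

theorem loc_v {V : Type} (G : SimpleGraph V) (v : V)
    (c : (G.induce (Far G v)).ConnectedComponent) :
    v ∉ loc_K G v c := fun h => (loc_sub G v c h).1 rfl

/-- at least two attachments -/
theorem loc_two {V : Type} (G : SimpleGraph V) (v : V) (hC : TwoC G)
    (c : (G.induce (Far G v)).ConnectedComponent) :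
    ∃ a ∈ Att G v (loc_K G v c), ∃ b ∈ Att G v (loc_K G v c), a ≠ b := by
  obtain ⟨x0, hx0⟩ := loc_nonempty G v c
  obtain ⟨a, b, ha, hb, hab⟩ := loc_cut0 G hC.1 (loc_K G v c) x0 v hx0 (loc_v G v c)
  have hbA := loc_out G v c a b ha hb hab
  have hx0b : x0 ≠ b := fun h => hb (h ▸ hx0)
  have hvb : v ≠ b := fun h => (hbA.1.ne h)
  obtain ⟨a', b', -, hb'T, ha', hb', hab'⟩ := loc_cut G {b}ᶜ (hC.2 b) (loc_K G v c) x0 v hx0b
    hvb hx0 (loc_v G v c)
  exact ⟨b, hbA, b', loc_out G v c a' b' ha' hb' hab', fun h => hb'T h.symm⟩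

/-- a set of attachments that is not on one side contains a consecutive pair across -/
theorem loc_cons {V : Type} [Finite V] (G : SimpleGraph V) (v : V) (K : Set V) (q : V → ℝ)
    (X : Set V) (a b : V) (ha : a ∈ Att G v K) (hb : b ∈ Att G v K) (haX : a ∈ X)
    (hbX : b ∉ X) : ∃ a b, a ∈ X ∧ b ∉ X ∧ Cons G v K q a b := by
  obtain ⟨⟨c, d⟩, ⟨hc, hd, hcX, hdX⟩, hmin⟩ := Set.exists_min_image
    {p : V × V | p.1 ∈ Att G v K ∧ p.2 ∈ Att G v K ∧ p.1 ∈ X ∧ p.2 ∉ X}
    (fun p => |q p.1 - q p.2|) (Set.toFinite _) ⟨(a, b), ha, hb, haX, hbX⟩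
  refine ⟨c, d, hcX, hdX, hc, hd, fun h => hdX (h ▸ hcX), ?_⟩
  intro n hn hB
  by_cases hnX : n ∈ X
  · have h := hmin (n, d) ⟨hn, hd, hnX, hdX⟩
    simp only at h
    rcases hB with h1 | h1
    · rw [abs_of_neg (by linarith : q c - q d < 0), abs_of_neg (by linarith : q n - q d < 0)]
        at h
      linarith
    · rw [abs_of_pos (by linarith : 0 < q c - q d), abs_of_pos (by linarith : 0 < q n - q d)]
        at h
      linarith
  · have h := hmin (c, n) ⟨hc, hn, hcX, hnX⟩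
    simp only at h
    rcases hB with h1 | h1
    · rw [abs_of_neg (by linarith : q c - q d < 0), abs_of_neg (by linarith : q c - q n < 0)]
        at h
      linarith
    · rw [abs_of_pos (by linarith : 0 < q c - q d), abs_of_pos (by linarith : 0 < q c - q n)]
        at h
      linarith

theorem st_LOC (h1 : ST_REP) (h2 : ST_PTH) : ST_LOC := by
  intro V _ G v hG hC hF hS
  have hcov : ∀ x ∈ Far G v, ∃ c, x ∈ loc_K G v c := fun x hx => ⟨_, hx, rfl⟩
  -- another component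
  have hother : ∀ c : (G.induce (Far G v)).ConnectedComponent, ∃ y ∈ Far G v,
      y ∉ loc_K G v c := by
    intro c
    by_contra hcon
    push Not at hcon
    apply hF
    intro x y
    obtain ⟨hx, hx'⟩ := hcon x.1 x.2
    obtain ⟨hy, hy'⟩ := hcon y.1 y.2
    exact SimpleGraph.ConnectedComponent.eq.1 (hx'.trans hy'.symm)
  have hrep : ∀ c : (G.induce (Far G v)).ConnectedComponent, ∃ q L R : V → ℝ,
      Rep G (loc_K G v c) (Att G v (loc_K G v c)) q L R := by
    intro c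
    refine h1 V G v (loc_K G v c) (Att G v (loc_K G v c)) (loc_sub G v c) (loc_conn G v c)
      (fun n hn => hn.1) (fun a ha b hb hab => hG.1 v a b ha.1 hab hb.1) (hS _ ?_)
    intro hu
    obtain ⟨y, hy, hyc⟩ := hother c
    have hm : y ∈ insert v (loc_K G v c ∪ Att G v (loc_K G v c)) := by rw [hu]; trivial
    rcases hm with h | h | h
    · exact hy.1 h
    · exact hyc h
    · exact hy.2 h.1
  choose q L R hR using hrep
  have hfin : Finite (G.induce (Far G v)).ConnectedComponent :=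
    Finite.of_surjective (G.induce (Far G v)).connectedComponentMk
      (fun c => c.exists_rep)
  -- neighbours of `v` have a far neighbour
  have hfar : ∀ n, G.Adj v n → ∀ b, b ≠ v → G.Adj n b → b ∈ Far G v := fun n hn b hbv hnb =>
    ⟨hbv, hG.1 v n b hn hnb⟩
  have hne : ∃ f, f ∈ Far G v := by
    by_contra hcon
    push Not at hcon
    exact hF (fun x _ => absurd x.2 (hcon x.1))
  obtain ⟨f, hf⟩ := hne
  refine ⟨_, hfin, loc_K G v, q, L, R, hR, ⟨fun c => loc_sub G v c, ?_, fun c a ha b hb h =>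
    (hR c).injq a ha b hb h, fun c => h2 V G v (loc_K G v c) (q c) (L c) (R c) hG
    (loc_sub G v c) (loc_conn G v c) (hR c)⟩, hcov, loc_two G v hC, ?_, ?_⟩
  · intro c d hcd x hx y hy
    refine ⟨?_, ?_⟩
    · rintro rfl
      exact hcd (loc_uniq G v c d x hx hy)
    · intro hxy
      exact hcd (loc_uniq G v c d y (loc_adj G v c x y hx (loc_sub G v d hy) hxy) hy)
  · intro n hn
    obtain ⟨a, b, -, hbT, ha, hb, hab⟩ := loc_cut G {v}ᶜ (hC.2 v) {n} n f hn.ne' hf.1 rfl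
      (fun h => hf.2 (by rw [Set.mem_singleton_iff.1 h]; exact hn))
    rw [Set.mem_singleton_iff] at ha
    subst ha
    obtain ⟨c, hc⟩ := hcov b (hfar a hn b hbT hab)
    exact ⟨c, hn, b, hc, hab⟩
  · intro X ⟨n1, hn1, hn1X⟩ ⟨n2, hn2, hn2X⟩
    by_contra hcon
    push Not at hcon
    have hside : ∀ c a b, a ∈ Att G v (loc_K G v c) → b ∈ Att G v (loc_K G v c) → a ∈ X →
        b ∉ X → False := by
      intro c a b ha hb haX hbX
      obtain ⟨a', b', ha'X, hb'X, hcons⟩ := loc_cons G v (loc_K G v c) (q c) X a b ha hb haX hbX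
      exact hcon a' b' hcons.1.1 hcons.2.1.1 ha'X hb'X ⟨c, hcons⟩
    obtain ⟨a, b, haT, hbT, ha, hb, hab⟩ := loc_cut G {v}ᶜ (hC.2 v)
      {y | (G.Adj v y ∧ y ∈ X) ∨ ∃ c, y ∈ loc_K G v c ∧ ∃ a ∈ Att G v (loc_K G v c), a ∈ X}
      n1 n2 hn1.ne' hn2.ne' (Or.inl ⟨hn1, hn1X⟩)
      (by
        rintro (h | ⟨c, hc, -⟩)
        · exact hn2X h.2
        · exact loc_notK G v c n2 hn2 hc)
    rcases ha with ⟨hva, haX⟩ | ⟨c, hc, a', ha', ha'X⟩
    · obtain ⟨d, hd⟩ := hcov b (hfar a hva b hbT hab)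
      exact hb (Or.inr ⟨d, hd, a, ⟨hva, b, hd, hab⟩, haX⟩)
    · by_cases hbc : b ∈ loc_K G v c
      · exact hb (Or.inr ⟨c, hbc, a', ha', ha'X⟩)
      · have hbA := loc_out G v c a b hc hbc hab
        by_cases hbX : b ∈ X
        · exact hb (Or.inl ⟨hbA.1, hbX⟩)
        · exact hside c a' b ha' hbA ha'X hbX

end Pool.Agent.Helper64.HG
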